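import Pool.Agent.Q3.SgnCex.Upper

/-!
# A null sequence in the plane with all sign sums but thin fibres: every target is attained
-/

set_option autoImplicit false

open Filter Topology Set

namespace Pool.Agent.Q3.SgnCex

open Pool.Agent.Q3.SgnDim

theorem sg_decide_mul_nonneg (e : ℝ) [Decidable (0 ≤ e)] :
    (0 ≤ e ∧ sg (decide (0 ≤ e)) = 1) ∨ (e < 0 ∧ sg (decide (0 ≤ e)) = -1) := by
  by_cases h : 0 ≤ e
  · left; exact ⟨h, by simp [sg, h]⟩
  · right; push Not at h; exact ⟨h, by simp [sg, h]⟩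

theorem greedy_const {e : ℕ → ℝ} {δ : ℝ} (hδ : 0 < δ) {a b : ℕ}
    (h : ∀ i, a ≤ i → i < b → ∃ σ : ℝ, ((0 ≤ e i ∧ σ = 1) ∨ (e i < 0 ∧ σ = -1)) ∧
      e (i + 1) = e i - σ * δ) :
    ∀ i, a ≤ i → i ≤ b → |e i| ≤ max δ (|e a| - ((i : ℝ) - a) * δ) := by
  intro i hi
  induction i, hi using Nat.le_induction with
  | base => intro _; simp
  | succ i hi ih =>
    intro hib
    have h1 := ih (by omega)
    obtain ⟨σ, hσ, h2⟩ := h i hi (by omega)
    push_cast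
    have h3 : |e (i + 1)| ≤ max δ (|e i| - δ) := by
      rw [h2]
      rcases hσ with ⟨h0, rfl⟩ | ⟨h0, rfl⟩
      · rw [one_mul, abs_of_nonneg h0, abs_le]
        constructor
        · linarith [le_max_left δ (e i - δ)]
        · exact le_max_right _ _
      · rw [abs_of_neg h0, abs_le]
        constructor
        · linarith [le_max_right δ (-e i - δ)]
        · linarith [le_max_left δ (-e i - δ)]
    refine h3.trans (max_le (le_max_left _ _) ?_)
    rcases le_max_iff.1 h1 with h4 | h4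
    · exact le_trans (by linarith) (le_max_left _ _)
    · exact le_trans (by linarith) (le_max_right _ _)

theorem greedy_bin {e : ℕ → ℝ} {c : ℝ} (hc : 0 < c) {a n : ℕ}
    (h : ∀ j, j < n → ∃ σ : ℝ, ((0 ≤ e (a + j) ∧ σ = 1) ∨ (e (a + j) < 0 ∧ σ = -1)) ∧
      e (a + j + 1) = e (a + j) - σ * (c * (1 / 2) ^ (j + 1))) (h0 : |e a| ≤ c) :
    ∀ j, j ≤ n → |e (a + j)| ≤ c * (1 / 2) ^ j := by
  intro j
  induction j with
  | zero => intro _; simpa using h0
  | succ j ih =>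
    intro hj
    have h1 := abs_le.1 (ih (by omega))
    obtain ⟨σ, hσ, h2⟩ := h j (by omega)
    rw [← add_assoc, h2]
    have e3 : (1 / 2 : ℝ) ^ (j + 1) = (1 / 2) ^ j / 2 := by rw [pow_succ]; ring
    have hp : (0 : ℝ) < (1 / 2) ^ j := by positivity
    have hcp : 0 < c * (1 / 2 : ℝ) ^ j := mul_pos hc hp
    rw [e3]
    have e4 : c * ((1 / 2 : ℝ) ^ j / 2) = c * (1 / 2) ^ j / 2 := by ring
    rw [e4]
    rw [abs_le]
    rcases hσ with ⟨h0, rfl⟩ | ⟨h0, rfl⟩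
    · constructor <;> linarith [h1.1, h1.2]
    · constructor <;> linarith [h1.1, h1.2]

/-- The functional guiding the signs. -/
noncomputable def w (Lx Ly : ℝ) (k : ℕ) (s : ℝ × ℝ) : ℝ := (Ly - s.2) - P k * (Lx - s.1)

open Classical in
/-- The rule for the signs. -/
noncomputable def rule (Lx Ly : ℝ) (k0 i : ℕ) (s : ℝ × ℝ) : Bool :=
  if blk i < k0 then true
  else if i < J (blk i) ∧ k0 < blk i then decide (0 ≤ Lx - s.1)
  else decide (0 ≤ w Lx Ly (blk i + 1) s)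

noncomputable def pr (Lx Ly : ℝ) (k0 : ℕ) : ℕ → ℝ × ℝ
  | 0 => (0, 0)
  | i + 1 => ((pr Lx Ly k0 i).1 + sg (rule Lx Ly k0 i (pr Lx Ly k0 i)) * ax i,
      (pr Lx Ly k0 i).2 + sg (rule Lx Ly k0 i (pr Lx Ly k0 i)) * ay i)

noncomputable def eps (Lx Ly : ℝ) (k0 : ℕ) : Om := fun i => rule Lx Ly k0 i (pr Lx Ly k0 i)

theorem pr_eq (Lx Ly : ℝ) (k0 i : ℕ) :
    pr Lx Ly k0 i = (Sx (eps Lx Ly k0) i, Sy (eps Lx Ly k0) i) := by
  induction i with
  | zero => simp [pr, Sx, Sy]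
  | succ i ih =>
    rw [Sx_succ, Sy_succ]
    have h1 : (pr Lx Ly k0 i).1 = Sx (eps Lx Ly k0) i := by rw [ih]
    have h2 : (pr Lx Ly k0 i).2 = Sy (eps Lx Ly k0) i := by rw [ih]
    show ((pr Lx Ly k0 i).1 + sg (eps Lx Ly k0 i) * ax i,
      (pr Lx Ly k0 i).2 + sg (eps Lx Ly k0 i) * ay i) = _
    rw [h1, h2]

theorem Sx_block (ε : Om) (k : ℕ) {b : ℕ} (h1 : T k ≤ b) (h2 : b ≤ J k) :
    |Sx ε b - Sx ε (T k)| ≤ ((b : ℝ) - T k) * X k := by
  induction b, h1 using Nat.le_induction with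
  | base => simp
  | succ b hb ih =>
    have h3 := ih (by omega)
    rw [Sx_succ, ax_copy hb (by omega)]
    have e : Sx ε b + sg (ε b) * X k - Sx ε (T k) = (Sx ε b - Sx ε (T k)) + sg (ε b) * X k := by ring
    have e2 : |sg (ε b) * X k| = X k := by rw [abs_mul, abs_sg, one_mul, abs_of_pos (X_pos k)]
    rw [e]
    refine (abs_add_le _ _).trans ?_
    rw [e2]
    push_cast
    linarith

theorem Sx_digit (ε : Om) (k : ℕ) (j : ℕ) (hj : j ≤ J k) : Sx ε (J k + j) = Sx ε (J k) := by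
  induction j with
  | zero => rfl
  | succ j ih =>
    have hT := T_succ k
    rw [← add_assoc, Sx_succ, ax_digit (k := k) (by omega) (by omega), ih (by omega)]
    ring

theorem Sx_T_succ (ε : Om) (k : ℕ) : Sx ε (T (k + 1)) = Sx ε (J k) := by
  rw [T_succ]; exact Sx_digit ε k (J k) le_rfl

theorem J_sub (k : ℕ) : ((J k : ℕ) : ℝ) - T k = Nn k := by unfold J; push_cast; ring

theorem crude (ε : Om) (k : ℕ) :
    |Sy ε (T k)| ≤ 4 * 4 ^ k ∧ |Sx ε (T k)| ≤ 4 * 4 ^ k / P k := by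
  induction k with
  | zero => rw [T_zero]; simp [Sx, Sy, P, p_zero]
  | succ k ih =>
    have hP := P_pos k
    have hP' := P_pos (k + 1)
    have h1 := Sx_block ε k (T_lt_J k).le le_rfl
    rw [J_sub] at h1
    have h2 := copy_rel ε k (T_lt_J k).le le_rfl
    have h3 := digit_bound ε k (J k) le_rfl
    rw [← T_succ] at h3
    have h4 : |Sy ε (J k) - Sy ε (T k)| ≤ 8 * 4 ^ k := by
      rw [h2, abs_mul, abs_of_pos hP, ← NPX]
      nlinarith
    have h5 : (0 : ℝ) ≤ (1 / 2) ^ J k := by positivity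
    have h6 : |Sy ε (T (k + 1)) - Sy ε (J k)| ≤ 4 := by
      have := P_le_one k
      nlinarith
    have h7 : (1 : ℝ) ≤ 4 ^ k := one_le_pow₀ (by norm_num)
    constructor
    · have e : Sy ε (T (k + 1)) = (Sy ε (T (k + 1)) - Sy ε (J k)) + (Sy ε (J k) - Sy ε (T k)) +
          Sy ε (T k) := by ring
      rw [e]
      refine (abs_add_le _ _).trans ?_
      have := abs_add_le (Sy ε (T (k + 1)) - Sy ε (J k)) (Sy ε (J k) - Sy ε (T k))
      rw [pow_succ]
      linarith [ih.1]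
    · rw [Sx_T_succ]
      have e : Sx ε (J k) = (Sx ε (J k) - Sx ε (T k)) + Sx ε (T k) := by ring
      rw [NX] at h1
      rw [e]
      refine (abs_add_le _ _).trans ?_
      calc |Sx ε (J k) - Sx ε (T k)| + |Sx ε (T k)| ≤ 8 * 4 ^ k / P k + 4 * 4 ^ k / P k :=
            add_le_add h1 ih.2
        _ = 12 * 4 ^ k / P k := by ring
        _ ≤ 4 * 4 ^ (k + 1) / P (k + 1) := by
            rw [div_le_div_iff₀ hP hP', pow_succ]
            have := P_succ_le k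
            nlinarith

section process

variable {Lx Ly : ℝ} {k0 : ℕ}

theorem w_digit_step (ε : Om) (hε : ε = eps Lx Ly k0) {k : ℕ} (hk : k0 ≤ k) (j : ℕ) (hj : j < J k) :
    ∃ σ : ℝ, ((0 ≤ w Lx Ly (k + 1) (Sx ε (J k + j), Sy ε (J k + j)) ∧ σ = 1) ∨
      (w Lx Ly (k + 1) (Sx ε (J k + j), Sy ε (J k + j)) < 0 ∧ σ = -1)) ∧
      w Lx Ly (k + 1) (Sx ε (J k + j + 1), Sy ε (J k + j + 1)) =
      w Lx Ly (k + 1) (Sx ε (J k + j), Sy ε (J k + j)) - σ * (4 * P k * (1 / 2) ^ (j + 1)) := by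
  classical
  have hT := T_succ k
  have hb : blk (J k + j) = k := blk_eq (by have := T_lt_J k; omega) (by omega)
  have hr : ε (J k + j) = decide (0 ≤ w Lx Ly (k + 1) (Sx ε (J k + j), Sy ε (J k + j))) := by
    have : ε (J k + j) = rule Lx Ly k0 (J k + j) (pr Lx Ly k0 (J k + j)) := by rw [hε]; rfl
    rw [this, pr_eq, ← hε]
    unfold rule
    rw [hb, if_neg (by omega), if_neg (by omega)]
  refine ⟨sg (ε (J k + j)), ?_, ?_⟩
  · rw [hr]; exact sg_decide_mul_nonneg _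
  · rw [Sx_succ, Sy_succ, ax_digit (k := k) (by omega) (by omega),
      ay_digit (k := k) (by omega) (by omega)]
    have e2 : J k + j - J k + 1 = j + 1 := by omega
    rw [e2]
    unfold w
    ring

theorem digits_phase (ε : Om) (hε : ε = eps Lx Ly k0) {k : ℕ} (hk : k0 ≤ k)
    (h0 : |w Lx Ly (k + 1) (Sx ε (J k), Sy ε (J k))| ≤ 4 * P k) :
    ∀ j, j ≤ J k → |w Lx Ly (k + 1) (Sx ε (J k + j), Sy ε (J k + j))| ≤ 4 * P k * (1 / 2) ^ j := by
  have hP := P_pos k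
  exact greedy_bin (e := fun i => w Lx Ly (k + 1) (Sx ε i, Sy ε i)) (c := 4 * P k) (by positivity)
    (fun j hj => w_digit_step ε hε hk j hj) h0

theorem digits_end (ε : Om) (hε : ε = eps Lx Ly k0) {k : ℕ} (hk : k0 ≤ k)
    (h0 : |w Lx Ly (k + 1) (Sx ε (J k), Sy ε (J k))| ≤ 4 * P k) :
    |w Lx Ly (k + 1) (Sx ε (T (k + 1)), Sy ε (T (k + 1)))| ≤ P (k + 1) := by
  have := digits_phase ε hε hk h0 (J k) le_rfl
  rw [← T_succ, ← P_succ] at this
  exact this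

/-- The first, wild stage. -/
theorem stage0 (ε : Om) (hε : ε = eps Lx Ly k0) (hx : |Lx| ≤ 4 ^ k0) (hy : |Ly| ≤ 4 ^ k0) :
    |w Lx Ly (k0 + 1) (Sx ε (J k0), Sy ε (J k0))| ≤ P k0 := by
  classical
  have hP := P_pos k0
  have hP' := P_pos (k0 + 1)
  have hPs := P_succ_le k0
  have hX := X_pos k0
  have hX1 := X_le_one k0
  obtain ⟨δ, hδ⟩ : ∃ δ, δ = (P k0 - P (k0 + 1)) * X k0 := ⟨_, rfl⟩
  have hδ0 : 0 < δ := by rw [hδ]; apply mul_pos _ hX; linarith
  have hg := greedy_const (e := fun i => w Lx Ly (k0 + 1) (Sx ε i, Sy ε i)) hδ0 (a := T k0)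
    (b := J k0) (by
      intro i hi1 hi2
      have hb : blk i = k0 := blk_eq hi1 (hi2.trans (J_lt_T k0))
      have hr : ε i = decide (0 ≤ w Lx Ly (k0 + 1) (Sx ε i, Sy ε i)) := by
        have : ε i = rule Lx Ly k0 i (pr Lx Ly k0 i) := by rw [hε]; rfl
        rw [this, pr_eq, ← hε]
        unfold rule
        rw [hb, if_neg (lt_irrefl _), if_neg (by simp)]
      refine ⟨sg (ε i), ?_, ?_⟩
      · rw [hr]; exact sg_decide_mul_nonneg _
      · show w Lx Ly (k0 + 1) (Sx ε (i + 1), Sy ε (i + 1)) = _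
        rw [Sx_succ, Sy_succ, ax_copy hi1 hi2, ay_copy hi1 hi2, hδ]
        unfold w
        ring) (J k0) (T_lt_J k0).le le_rfl
  rw [J_sub] at hg
  refine hg.trans (max_le ?_ ?_)
  · rw [hδ]; nlinarith
  · obtain ⟨c1, c2⟩ := crude ε k0
    have h4 : (0 : ℝ) < 4 ^ k0 := by positivity
    have h1 : P (k0 + 1) * |Sx ε (T k0)| ≤ 4 ^ k0 / 16 := by
      have : P (k0 + 1) * (4 * 4 ^ k0 / P k0) ≤ 4 ^ k0 / 16 := by
        rw [mul_div_assoc', div_le_iff₀ hP]
        nlinarith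
      exact (mul_le_mul_of_nonneg_left c2 hP'.le).trans this
    have h2 : |w Lx Ly (k0 + 1) (Sx ε (T k0), Sy ε (T k0))| ≤
        |Ly| + |Sy ε (T k0)| + (P (k0 + 1) * |Lx| + P (k0 + 1) * |Sx ε (T k0)|) := by
      unfold w
      calc |(Ly - Sy ε (T k0)) - P (k0 + 1) * (Lx - Sx ε (T k0))|
          ≤ |Ly - Sy ε (T k0)| + |P (k0 + 1) * (Lx - Sx ε (T k0))| := abs_sub _ _
        _ ≤ (|Ly| + |Sy ε (T k0)|) + P (k0 + 1) * (|Lx| + |Sx ε (T k0)|) := by
            rw [abs_mul, abs_of_pos hP']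
            have a1 := abs_sub Ly (Sy ε (T k0))
            have a2 := abs_sub Lx (Sx ε (T k0))
            have := mul_le_mul_of_nonneg_left a2 hP'.le
            linarith
        _ = _ := by ring
    have h3 : P (k0 + 1) * |Lx| ≤ 4 ^ k0 / 64 := by
      have := P_le_one k0
      nlinarith [abs_nonneg Lx]
    have h5 : (Nn k0 : ℝ) * δ ≥ 7 * 4 ^ k0 := by
      have e := NPX k0
      have : (Nn k0 : ℝ) * δ = Nn k0 * (P k0 * X k0) - Nn k0 * (P (k0 + 1) * X k0) := by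
        rw [hδ]; ring
      rw [this, e]
      have h6 : (Nn k0 : ℝ) * (P (k0 + 1) * X k0) ≤ Nn k0 * (P k0 * X k0) / 64 := by
        have hN : (0 : ℝ) ≤ Nn k0 := Nat.cast_nonneg _
        have : P (k0 + 1) * X k0 ≤ P k0 * X k0 / 64 := by nlinarith
        nlinarith
      rw [e] at h6
      linarith
    have h7 : |w Lx Ly (k0 + 1) (Sx ε (T k0), Sy ε (T k0))| ≤ 6 * 4 ^ k0 := by linarith
    show |w Lx Ly (k0 + 1) (Sx ε (T k0), Sy ε (T k0))| - Nn k0 * δ ≤ P k0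
    linarith

/-- The copies phase of a tame stage. -/
theorem copies_phase (ε : Om) (hε : ε = eps Lx Ly k0) {k : ℕ} (hk : k0 < k) :
    ∀ i, T k ≤ i → i ≤ J k → |Lx - Sx ε i| ≤ max (X k) (|Lx - Sx ε (T k)| - ((i : ℝ) - T k) * X k) := by
  classical
  refine greedy_const (e := fun i => Lx - Sx ε i) (X_pos k) (a := T k) (b := J k) ?_
  intro i hi1 hi2
  have hb : blk i = k := blk_eq hi1 (hi2.trans (J_lt_T k))
  have hr : ε i = decide (0 ≤ Lx - Sx ε i) := by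
    have : ε i = rule Lx Ly k0 i (pr Lx Ly k0 i) := by rw [hε]; rfl
    rw [this, pr_eq, ← hε]
    unfold rule
    rw [hb, if_neg (by omega), if_pos ⟨hi2, hk⟩]
  refine ⟨sg (ε i), ?_, ?_⟩
  · rw [hr]; exact sg_decide_mul_nonneg _
  · show Lx - Sx ε (i + 1) = _
    rw [Sx_succ, ax_copy hi1 hi2]
    ring

/-- The invariant at the start of a tame stage. -/
def Inv (Lx Ly : ℝ) (ε : Om) (k : ℕ) : Prop :=
  |w Lx Ly k (Sx ε (T k), Sy ε (T k))| ≤ P k ∧ |Lx - Sx ε (T k)| ≤ Nn k * X k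

theorem w_copies (ε : Om) (k : ℕ) {i : ℕ} (h1 : T k ≤ i) (h2 : i ≤ J k) :
    w Lx Ly k (Sx ε i, Sy ε i) = w Lx Ly k (Sx ε (T k), Sy ε (T k)) := by
  have := copy_rel ε k h1 h2
  unfold w
  simp only
  linarith

theorem inv_step (ε : Om) (hε : ε = eps Lx Ly k0) {k : ℕ} (hk : k0 < k) (h : Inv Lx Ly ε k) :
    Inv Lx Ly ε (k + 1) ∧ |Lx - Sx ε (J k)| ≤ X k ∧
      |w Lx Ly (k + 1) (Sx ε (J k), Sy ε (J k))| ≤ 4 * P k := by
  have hP := P_pos k
  have hP' := P_pos (k + 1)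
  have hPs := P_succ_le k
  have hX := X_pos k
  have hX1 := X_le_one k
  have h1 := copies_phase ε hε hk (J k) (T_lt_J k).le le_rfl
  rw [J_sub] at h1
  have h2 : |Lx - Sx ε (J k)| ≤ X k := by
    refine h1.trans (max_le le_rfl ?_)
    linarith [h.2]
  have h3 : |w Lx Ly (k + 1) (Sx ε (J k), Sy ε (J k))| ≤ 4 * P k := by
    have e : w Lx Ly (k + 1) (Sx ε (J k), Sy ε (J k)) =
        w Lx Ly k (Sx ε (T k), Sy ε (T k)) + (P k - P (k + 1)) * (Lx - Sx ε (J k)) := by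
      rw [← w_copies ε k (T_lt_J k).le le_rfl]
      unfold w; ring
    rw [e]
    refine (abs_add_le _ _).trans ?_
    rw [abs_mul, abs_of_pos (show (0 : ℝ) < P k - P (k + 1) by linarith)]
    have h4 : (P k - P (k + 1)) * |Lx - Sx ε (J k)| ≤ P k * 1 :=
      mul_le_mul (by linarith) (h2.trans hX1) (abs_nonneg _) hP.le
    linarith [h.1]
  refine ⟨⟨digits_end ε hε hk.le h3, ?_⟩, h2, h3⟩
  rw [Sx_T_succ]
  refine h2.trans ?_
  have hN : (64 : ℝ) ≤ Nn (k + 1) := by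
    have h5 := Nn_ge (k + 1)
    have h6 : 8 ^ 2 ≤ 8 ^ (k + 1 + 1) := Nat.pow_le_pow_right (by norm_num) (by omega)
    have : 64 ≤ Nn (k + 1) := by omega
    exact_mod_cast this
  rw [X_succ]
  nlinarith

theorem inv_start (ε : Om) (hε : ε = eps Lx Ly k0) (hx : |Lx| ≤ 4 ^ k0) (hy : |Ly| ≤ 4 ^ k0) :
    Inv Lx Ly ε (k0 + 1) := by
  have hP := P_pos k0
  have hP' := P_pos (k0 + 1)
  have h0 := stage0 ε hε hx hy
  refine ⟨digits_end ε hε le_rfl (by linarith), ?_⟩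
  rw [NX]
  obtain ⟨-, c2⟩ := crude ε (k0 + 1)
  have h1 : (4 : ℝ) ^ k0 ≤ 4 * 4 ^ (k0 + 1) / P (k0 + 1) := by
    rw [le_div_iff₀ hP', pow_succ]
    have := P_le_one (k0 + 1)
    have h4 : (0 : ℝ) < 4 ^ k0 := by positivity
    nlinarith
  calc |Lx - Sx ε (T (k0 + 1))| ≤ |Lx| + |Sx ε (T (k0 + 1))| := abs_sub _ _
    _ ≤ 4 * 4 ^ (k0 + 1) / P (k0 + 1) + 4 * 4 ^ (k0 + 1) / P (k0 + 1) :=
        add_le_add (hx.trans h1) c2
    _ = 8 * 4 ^ (k0 + 1) / P (k0 + 1) := by ring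

theorem inv_all (ε : Om) (hε : ε = eps Lx Ly k0) (hx : |Lx| ≤ 4 ^ k0) (hy : |Ly| ≤ 4 ^ k0)
    (k : ℕ) (hk : k0 < k) : Inv Lx Ly ε k := by
  induction k, (hk : k0 + 1 ≤ k) using Nat.le_induction with
  | base => exact inv_start ε hε hx hy
  | succ k hk ih => exact (inv_step ε hε hk ih).1

theorem final_bound (ε : Om) (hε : ε = eps Lx Ly k0) (hx : |Lx| ≤ 4 ^ k0) (hy : |Ly| ≤ 4 ^ k0)
    (i : ℕ) (hi : T (k0 + 2) ≤ i) :
    |Lx - Sx ε i| ≤ 2 * X (blk i) ∧ |Ly - Sy ε i| ≤ 5 * X (blk i) := by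
  obtain ⟨k, hk⟩ : ∃ k, k = blk i := ⟨_, rfl⟩
  obtain ⟨hi1, hi2⟩ := blk_spec i
  rw [← hk] at hi1 hi2 ⊢
  have hkk : k0 + 2 ≤ k := by rw [hk]; exact blk_ge hi
  obtain ⟨k', rfl⟩ : ∃ k', k = k' + 1 := ⟨k - 1, by omega⟩
  have hprev := inv_step ε hε (k := k') (by omega) (inv_all ε hε hx hy k' (by omega))
  have hcur := inv_step ε hε (k := k' + 1) (by omega) hprev.1
  have hP := P_pos (k' + 1)
  have hPX := P_le_X (k' + 1)
  have hX := X_pos (k' + 1)
  have hX1 := X_le_one k'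
  have hX1' := X_le_one (k' + 1)
  have hXs := X_succ k'
  have hT1 : |Lx - Sx ε (T (k' + 1))| ≤ X k' := by rw [Sx_T_succ]; exact hprev.2.1
  rcases le_or_gt i (J (k' + 1)) with hiJ | hiJ
  · have h1 := copies_phase ε hε (k := k' + 1) (by omega) i hi1 hiJ
    have h2 : |Lx - Sx ε i| ≤ X k' := by
      refine h1.trans (max_le (by linarith) ?_)
      have : (0 : ℝ) ≤ ((i : ℝ) - T (k' + 1)) * X (k' + 1) := by
        apply mul_nonneg _ hX.le
        rw [sub_nonneg]; exact_mod_cast hi1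
      linarith
    have h3 : |Ly - Sy ε i| ≤ 2 * P (k' + 1) := by
      have e : Ly - Sy ε i = w Lx Ly (k' + 1) (Sx ε i, Sy ε i) + P (k' + 1) * (Lx - Sx ε i) := by
        unfold w; ring
      rw [e, w_copies ε (k' + 1) hi1 hiJ]
      refine (abs_add_le _ _).trans ?_
      rw [abs_mul, abs_of_pos hP]
      have := hprev.1.1
      have h5 : P (k' + 1) * |Lx - Sx ε i| ≤ P (k' + 1) * 1 :=
        mul_le_mul_of_nonneg_left (h2.trans hX1) hP.le
      linarith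
    exact ⟨by linarith, by linarith⟩
  · obtain ⟨j, rfl⟩ : ∃ j, i = J (k' + 1) + j := ⟨i - J (k' + 1), by omega⟩
    have hTs := T_succ (k' + 1)
    have hj : j ≤ J (k' + 1) := by omega
    have h2 := hcur.2.1
    have h2' : |Lx - Sx ε (J (k' + 1) + j)| ≤ X (k' + 1) := by
      rw [Sx_digit ε _ j hj]; exact h2
    have h3 := digits_phase ε hε (k := k' + 1) (by omega) hcur.2.2 j hj
    have h4 : (1 / 2 : ℝ) ^ j ≤ 1 := pow_le_one₀ (by norm_num) (by norm_num)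
    have h5 : |w Lx Ly (k' + 1 + 1) (Sx ε (J (k' + 1) + j), Sy ε (J (k' + 1) + j))| ≤
        4 * P (k' + 1) := by nlinarith
    refine ⟨by linarith, ?_⟩
    have hP2 := P_pos (k' + 1 + 1)
    have hPs := P_succ_le (k' + 1)
    have e : Ly - Sy ε (J (k' + 1) + j) =
        w Lx Ly (k' + 1 + 1) (Sx ε (J (k' + 1) + j), Sy ε (J (k' + 1) + j)) +
        P (k' + 1 + 1) * (Lx - Sx ε (J (k' + 1) + j)) := by unfold w; ring
    rw [e]
    refine (abs_add_le _ _).trans ?_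
    rw [abs_mul, abs_of_pos hP2]
    have h6 : P (k' + 1 + 1) * |Lx - Sx ε (J (k' + 1) + j)| ≤ P (k' + 1) * 1 :=
      mul_le_mul (by linarith) (h2'.trans hX1') (abs_nonneg _) hP.le
    linarith

end process

theorem attained (Lx Ly : ℝ) :
    ∃ ε : Om, Tendsto (Sx ε) atTop (𝓝 Lx) ∧ Tendsto (Sy ε) atTop (𝓝 Ly) := by
  obtain ⟨k0, hk0⟩ : ∃ k0 : ℕ, max |Lx| |Ly| < (4 : ℝ) ^ k0 :=
    pow_unbounded_of_one_lt _ (by norm_num)
  have hx : |Lx| ≤ 4 ^ k0 := (le_max_left _ _).trans hk0.le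
  have hy : |Ly| ≤ 4 ^ k0 := (le_max_right _ _).trans hk0.le
  refine ⟨eps Lx Ly k0, ?_, ?_⟩
  · rw [tendsto_iff_norm_sub_tendsto_zero]
    have h := (tendsto_X.comp tendsto_blk).const_mul 2
    rw [mul_zero] at h
    refine squeeze_zero' (Eventually.of_forall fun i => norm_nonneg _) ?_ h
    filter_upwards [eventually_ge_atTop (T (k0 + 2))] with i hi
    rw [Real.norm_eq_abs, abs_sub_comm]
    exact (final_bound _ rfl hx hy i hi).1
  · rw [tendsto_iff_norm_sub_tendsto_zero]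
    have h := (tendsto_X.comp tendsto_blk).const_mul 5
    rw [mul_zero] at h
    refine squeeze_zero' (Eventually.of_forall fun i => norm_nonneg _) ?_ h
    filter_upwards [eventually_ge_atTop (T (k0 + 2))] with i hi
    rw [Real.norm_eq_abs, abs_sub_comm]
    exact (final_bound _ rfl hx hy i hi).2

end Pool.Agent.Q3.SgnCex
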