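import Pool.Agent.Q3.SgnDim.Main

/-!
# A null sequence in the plane with all sign sums but thin fibres: blocks
-/

set_option autoImplicit false

open Filter Topology Set

namespace Pool.Agent.Q3.SgnCex

/-- `(T_k, p_k)`. -/
def st : ℕ → ℕ × ℕ
  | 0 => (0, 0)
  | k + 1 => (2 * ((st k).1 + 8 ^ (k + 1) * 2 ^ (st k).2),
      (st k).2 + ((st k).1 + 8 ^ (k + 1) * 2 ^ (st k).2) - 2)

def T (k : ℕ) : ℕ := (st k).1
def p (k : ℕ) : ℕ := (st k).2
def Nn (k : ℕ) : ℕ := 8 ^ (k + 1) * 2 ^ p k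
def J (k : ℕ) : ℕ := T k + Nn k

theorem T_zero : T 0 = 0 := rfl
theorem p_zero : p 0 = 0 := rfl
theorem T_succ (k : ℕ) : T (k + 1) = J k + J k := by
  show 2 * J k = _
  omega

theorem Nn_ge (k : ℕ) : 8 ^ (k + 1) ≤ Nn k := Nat.le_mul_of_pos_right _ (by positivity)

theorem J_ge (k : ℕ) : 8 ≤ J k := by
  have h1 := Nn_ge k
  have h2 : 8 ^ 1 ≤ 8 ^ (k + 1) := Nat.pow_le_pow_right (by norm_num) (by omega)
  unfold J
  omega

theorem p_succ (k : ℕ) : p (k + 1) + 2 = p k + J k := by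
  have h := J_ge k
  show (p k + J k - 2) + 2 = _
  omega

theorem T_lt_J (k : ℕ) : T k < J k := by
  have : 0 < Nn k := by unfold Nn; positivity
  unfold J; omega

theorem J_lt_T (k : ℕ) : J k < T (k + 1) := by
  rw [T_succ]
  have := J_ge k
  omega

theorem T_strictMono : StrictMono T := strictMono_nat_of_lt_succ fun k =>
  (T_lt_J k).trans (J_lt_T k)

theorem le_T (k : ℕ) : k ≤ T k := T_strictMono.le_apply

/-- The block of an index. -/
def blk (i : ℕ) : ℕ := Nat.findGreatest (fun k => T k ≤ i) i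

theorem blk_spec (i : ℕ) : T (blk i) ≤ i ∧ i < T (blk i + 1) := by
  constructor
  · have := Nat.findGreatest_spec (P := fun k => T k ≤ i) (m := 0) (n := i) (Nat.zero_le _)
      (by rw [T_zero]; exact Nat.zero_le _)
    exact this
  · by_contra h
    push Not at h
    have h1 : blk i + 1 ≤ i := (le_T _).trans h
    have := Nat.le_findGreatest (P := fun k => T k ≤ i) h1 h
    unfold blk at this
    omega

theorem blk_eq {i k : ℕ} (h1 : T k ≤ i) (h2 : i < T (k + 1)) : blk i = k := by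
  obtain ⟨h3, h4⟩ := blk_spec i
  have a : k < blk i + 1 := T_strictMono.lt_iff_lt.1 (lt_of_le_of_lt h1 h4)
  have b : blk i < k + 1 := T_strictMono.lt_iff_lt.1 (lt_of_le_of_lt h3 h2)
  omega

theorem blk_ge {i k : ℕ} (h : T k ≤ i) : k ≤ blk i := by
  obtain ⟨h3, h4⟩ := blk_spec i
  have a : k < blk i + 1 := T_strictMono.lt_iff_lt.1 (lt_of_le_of_lt h h4)
  omega

/-- `x_k = 2^{-k}`. -/
noncomputable def X (k : ℕ) : ℝ := (1 / 2) ^ k
/-- `P_k = 2^{-p_k}`. -/
noncomputable def P (k : ℕ) : ℝ := (1 / 2) ^ p k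

theorem X_pos (k : ℕ) : 0 < X k := by unfold X; positivity
theorem P_pos (k : ℕ) : 0 < P k := by unfold P; positivity
theorem X_le_one (k : ℕ) : X k ≤ 1 := pow_le_one₀ (by norm_num) (by norm_num)
theorem P_le_one (k : ℕ) : P k ≤ 1 := pow_le_one₀ (by norm_num) (by norm_num)

theorem P_succ (k : ℕ) : P (k + 1) = 4 * P k * (1 / 2) ^ J k := by
  have h : (1 / 2 : ℝ) ^ (p (k + 1) + 2) = (1 / 2) ^ (p k + J k) := by rw [p_succ]
  rw [pow_add, pow_add] at h
  unfold P
  have e : (1 / 2 : ℝ) ^ 2 = 1 / 4 := by norm_num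
  rw [e] at h
  linarith

theorem P_succ_le (k : ℕ) : P (k + 1) ≤ P k / 64 := by
  rw [P_succ]
  have h : (1 / 2 : ℝ) ^ J k ≤ (1 / 2) ^ 8 := pow_le_pow_of_le_one (by norm_num) (by norm_num) (J_ge k)
  have e : (1 / 2 : ℝ) ^ 8 = 1 / 256 := by norm_num
  rw [e] at h
  nlinarith [P_pos k]

theorem NP (k : ℕ) : (Nn k : ℝ) * P k = 8 ^ (k + 1) := by
  unfold Nn P
  push_cast
  rw [mul_assoc, ← mul_pow]
  norm_num

theorem NPX (k : ℕ) : (Nn k : ℝ) * (P k * X k) = 8 * 4 ^ k := by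
  rw [← mul_assoc, NP]
  unfold X
  rw [pow_succ, mul_assoc, mul_comm (8 : ℝ) (_ ^ k), ← mul_assoc, ← mul_pow]
  norm_num
  ring

theorem NX (k : ℕ) : (Nn k : ℝ) * X k = 8 * 4 ^ k / P k := by
  rw [eq_div_iff (P_pos k).ne', ← NPX]; ring

theorem X_succ (k : ℕ) : X (k + 1) = X k / 2 := by unfold X; rw [pow_succ]; ring

theorem P_le_X (k : ℕ) : P k ≤ X k := by
  induction k with
  | zero => simp [P, X, p_zero]
  | succ k ih =>
    rw [X_succ]
    have := P_succ_le k
    have := X_pos k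
    linarith

/-- First coordinates. -/
noncomputable def ax (i : ℕ) : ℝ := if i < J (blk i) then X (blk i) else 0
/-- Second coordinates. -/
noncomputable def ay (i : ℕ) : ℝ :=
  if i < J (blk i) then P (blk i) * X (blk i) else 4 * P (blk i) * (1 / 2) ^ (i - J (blk i) + 1)

theorem ax_copy {i k : ℕ} (h1 : T k ≤ i) (h2 : i < J k) : ax i = X k := by
  have : blk i = k := blk_eq h1 (h2.trans (J_lt_T k))
  unfold ax; rw [this, if_pos h2]

theorem ay_copy {i k : ℕ} (h1 : T k ≤ i) (h2 : i < J k) : ay i = P k * X k := by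
  have : blk i = k := blk_eq h1 (h2.trans (J_lt_T k))
  unfold ay; rw [this, if_pos h2]

theorem ax_digit {i k : ℕ} (h1 : J k ≤ i) (h2 : i < T (k + 1)) : ax i = 0 := by
  have : blk i = k := blk_eq ((T_lt_J k).le.trans h1) h2
  unfold ax; rw [this, if_neg (by omega)]

theorem ay_digit {i k : ℕ} (h1 : J k ≤ i) (h2 : i < T (k + 1)) :
    ay i = 4 * P k * (1 / 2) ^ (i - J k + 1) := by
  have : blk i = k := blk_eq ((T_lt_J k).le.trans h1) h2
  unfold ay; rw [this, if_neg (by omega)]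

theorem abs_le_block (i : ℕ) : |ax i| ≤ 4 * X (blk i) ∧ |ay i| ≤ 4 * X (blk i) := by
  have h1 := X_pos (blk i)
  have h2 := P_pos (blk i)
  have h3 := P_le_X (blk i)
  have h4 := X_le_one (blk i)
  unfold ax ay
  split_ifs
  · rw [abs_of_pos h1, abs_of_pos (mul_pos h2 h1)]
    constructor
    · linarith
    · nlinarith
  · rw [abs_zero, abs_of_pos (by positivity)]
    have h5 : (1 / 2 : ℝ) ^ (i - J (blk i) + 1) ≤ 1 := pow_le_one₀ (by norm_num) (by norm_num)
    constructor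
    · linarith
    · nlinarith

theorem tendsto_blk : Tendsto blk atTop atTop := by
  rw [tendsto_atTop]
  intro k
  filter_upwards [eventually_ge_atTop (T k)] with i hi
  exact blk_ge hi

theorem tendsto_X : Tendsto X atTop (𝓝 0) :=
  tendsto_pow_atTop_nhds_zero_of_lt_one (by norm_num) (by norm_num)

theorem tendsto_ax : Tendsto ax atTop (𝓝 0) := by
  have h := (tendsto_X.comp tendsto_blk).const_mul 4
  rw [mul_zero] at h
  exact squeeze_zero_norm (fun i => (abs_le_block i).1) h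

theorem tendsto_ay : Tendsto ay atTop (𝓝 0) := by
  have h := (tendsto_X.comp tendsto_blk).const_mul 4
  rw [mul_zero] at h
  exact squeeze_zero_norm (fun i => (abs_le_block i).2) h

end Pool.Agent.Q3.SgnCex
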