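import Pool.Agent.Q3.SgnCex.Blocks

/-!
# A null sequence in the plane with all sign sums but thin fibres: the upper bound
-/

set_option autoImplicit false

open Filter Topology Set MeasureTheory
open scoped NNReal ENNReal

namespace Pool.Agent.Q3.SgnCex

open Pool.Agent.Q3.SgnDim

noncomputable def Sx (ε : Om) (n : ℕ) : ℝ := ∑ i ∈ Finset.range n, sg (ε i) * ax i
noncomputable def Sy (ε : Om) (n : ℕ) : ℝ := ∑ i ∈ Finset.range n, sg (ε i) * ay i

theorem Sx_succ (ε : Om) (n : ℕ) : Sx ε (n + 1) = Sx ε n + sg (ε n) * ax n := by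
  unfold Sx; rw [Finset.sum_range_succ]
theorem Sy_succ (ε : Om) (n : ℕ) : Sy ε (n + 1) = Sy ε n + sg (ε n) * ay n := by
  unfold Sy; rw [Finset.sum_range_succ]

theorem copy_rel (ε : Om) (k : ℕ) {b : ℕ} (h1 : T k ≤ b) (h2 : b ≤ J k) :
    Sy ε b - Sy ε (T k) = P k * (Sx ε b - Sx ε (T k)) := by
  induction b, h1 using Nat.le_induction with
  | base => simp
  | succ b hb ih =>
    have := ih (by omega)
    rw [Sx_succ, Sy_succ, ax_copy hb (by omega), ay_copy hb (by omega)]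
    linarith

theorem digit_bound (ε : Om) (k : ℕ) (j : ℕ) (hj : j ≤ J k) :
    |Sy ε (J k + j) - Sy ε (J k)| ≤ 4 * P k * (1 - (1 / 2) ^ j) := by
  induction j with
  | zero => simp
  | succ j ih =>
    have h := ih (by omega)
    have e : J k + (j + 1) = (J k + j) + 1 := by omega
    have hT := T_succ k
    rw [e, Sy_succ, ay_digit (k := k) (by omega) (by omega)]
    have e2 : J k + j - J k + 1 = j + 1 := by omega
    rw [e2]
    have h3 : Sy ε (J k + j) + sg (ε (J k + j)) * (4 * P k * (1 / 2) ^ (j + 1)) - Sy ε (J k) =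
        (Sy ε (J k + j) - Sy ε (J k)) + sg (ε (J k + j)) * (4 * P k * (1 / 2) ^ (j + 1)) := by ring
    rw [h3]
    have h4 : |sg (ε (J k + j)) * (4 * P k * (1 / 2 : ℝ) ^ (j + 1))| =
        4 * P k * (1 / 2) ^ (j + 1) := by
      have := P_pos k
      rw [abs_mul, abs_sg, one_mul, abs_of_pos (by positivity)]
    calc _ ≤ |Sy ε (J k + j) - Sy ε (J k)| + |sg (ε (J k + j)) * (4 * P k * (1 / 2) ^ (j + 1))| :=
          abs_add_le _ _
      _ ≤ 4 * P k * (1 - (1 / 2) ^ j) + 4 * P k * (1 / 2) ^ (j + 1) := by rw [h4]; linarith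
      _ = _ := by rw [pow_succ]; ring

theorem Sy_congr {ε ε' : Om} {n : ℕ} (h : ∀ i < n, ε i = ε' i) : Sy ε n = Sy ε' n := by
  unfold Sy
  refine Finset.sum_congr rfl fun i hi => ?_
  rw [h i (Finset.mem_range.1 hi)]

/-- Different digit patterns give well separated sums. -/
theorem separation {ε ε' : Om} {k : ℕ} (h : ∀ i < J k, ε i = ε' i)
    (hne : ∃ i < T (k + 1), ε i ≠ ε' i) :
    2 * P (k + 1) ≤ |Sy ε (T (k + 1)) - Sy ε' (T (k + 1))| := by
  classical
  obtain ⟨i0, ⟨hi0, hne0⟩, hmin⟩ : ∃ i0, (i0 < T (k + 1) ∧ ε i0 ≠ ε' i0) ∧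
      ∀ i < i0, ε i = ε' i := by
    refine ⟨Nat.find hne, Nat.find_spec hne, fun i hi => ?_⟩
    have := Nat.find_min hne hi
    push Not at this
    exact this (hi.trans (Nat.find_spec hne).1)
  have hJi : J k ≤ i0 := by
    by_contra hlt
    push Not at hlt
    exact hne0 (h i0 hlt)
  obtain ⟨j0, rfl⟩ : ∃ j0, i0 = J k + j0 := ⟨i0 - J k, by omega⟩
  have hT := T_succ k
  have hP := P_pos k
  have key : ∀ j, j0 + 1 ≤ j → j ≤ J k →
      8 * P k * (1 / 2 : ℝ) ^ j ≤ |Sy ε (J k + j) - Sy ε' (J k + j)| := by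
    intro j hj
    induction j, hj using Nat.le_induction with
    | base =>
      intro _
      have e : J k + (j0 + 1) = (J k + j0) + 1 := by omega
      rw [e, Sy_succ, Sy_succ, Sy_congr hmin, ay_digit (k := k) (by omega) (by omega)]
      have e2 : J k + j0 - J k + 1 = j0 + 1 := by omega
      rw [e2]
      have h3 : |sg (ε (J k + j0)) - sg (ε' (J k + j0))| = 2 := by
        cases hb : ε (J k + j0) <;> cases hb' : ε' (J k + j0) <;> simp_all [sg] <;> norm_num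
      have h4 : Sy ε' (J k + j0) + sg (ε (J k + j0)) * (4 * P k * (1 / 2 : ℝ) ^ (j0 + 1)) -
          (Sy ε' (J k + j0) + sg (ε' (J k + j0)) * (4 * P k * (1 / 2) ^ (j0 + 1))) =
          (sg (ε (J k + j0)) - sg (ε' (J k + j0))) * (4 * P k * (1 / 2) ^ (j0 + 1)) := by ring
      rw [h4, abs_mul, h3, abs_of_pos (by positivity)]
      linarith
    | succ j hj ih =>
      intro hjJ
      have h1 := ih (by omega)
      have e : J k + (j + 1) = (J k + j) + 1 := by omega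
      rw [e, Sy_succ, Sy_succ, ay_digit (k := k) (by omega) (by omega)]
      have e2 : J k + j - J k + 1 = j + 1 := by omega
      rw [e2]
      have h3 : |sg (ε (J k + j)) - sg (ε' (J k + j))| ≤ 2 := by
        cases ε (J k + j) <;> cases ε' (J k + j) <;> simp [sg] <;> norm_num
      have hpos : 0 < 4 * P k * (1 / 2 : ℝ) ^ (j + 1) := by positivity
      have h4 : |(sg (ε (J k + j)) - sg (ε' (J k + j))) * (4 * P k * (1 / 2 : ℝ) ^ (j + 1))| ≤
          2 * (4 * P k * (1 / 2) ^ (j + 1)) := by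
        rw [abs_mul, abs_of_pos hpos]
        exact mul_le_mul_of_nonneg_right h3 hpos.le
      have h5 : Sy ε (J k + j) + sg (ε (J k + j)) * (4 * P k * (1 / 2 : ℝ) ^ (j + 1)) -
          (Sy ε' (J k + j) + sg (ε' (J k + j)) * (4 * P k * (1 / 2) ^ (j + 1))) =
          (Sy ε (J k + j) - Sy ε' (J k + j)) -
          (-((sg (ε (J k + j)) - sg (ε' (J k + j))) * (4 * P k * (1 / 2) ^ (j + 1)))) := by ring
      rw [h5]
      have h6 := abs_sub_abs_le_abs_sub (Sy ε (J k + j) - Sy ε' (J k + j))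
        (-((sg (ε (J k + j)) - sg (ε' (J k + j))) * (4 * P k * (1 / 2 : ℝ) ^ (j + 1))))
      rw [abs_neg] at h6
      have e3 : (1 / 2 : ℝ) ^ (j + 1) = (1 / 2) ^ j / 2 := by rw [pow_succ]; ring
      rw [e3] at h4 h6 ⊢
      linarith
  have h1 := key (J k) (by omega) le_rfl
  rw [← T_succ] at h1
  rw [P_succ]
  linarith

/-- Signs whose partial sums are controlled from stage `k0` on. -/
def Fs (Ly : ℝ) (k0 : ℕ) : Set Om := {ε | ∀ k, k0 ≤ k → |Ly - Sy ε (T (k + 1))| ≤ 12 * P (k + 1)}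

theorem exists_stage {ε : Om} {Lx Ly : ℝ} (hx : Tendsto (Sx ε) atTop (𝓝 Lx))
    (hy : Tendsto (Sy ε) atTop (𝓝 Ly)) : ∃ k0, ε ∈ Fs Ly k0 := by
  rw [Metric.tendsto_atTop] at hx
  obtain ⟨n0, hn0⟩ := hx 1 one_pos
  refine ⟨n0, fun k hk => ?_⟩
  have step : ∀ i, n0 ≤ i → |Sy ε (T (i + 1)) - Sy ε (T i)| ≤ 6 * P i := by
    intro i hi
    have a1 := hn0 (T i) (hi.trans (le_T i))
    have a2 := hn0 (J i) ((hi.trans (le_T i)).trans (T_lt_J i).le)
    rw [Real.dist_eq, abs_lt] at a1 a2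
    have hP := P_pos i
    have b1 := copy_rel ε i (T_lt_J i).le le_rfl
    have b2 : |Sx ε (J i) - Sx ε (T i)| ≤ 2 := by
      rw [abs_le]; constructor <;> linarith [a1.1, a1.2, a2.1, a2.2]
    have b3 : |Sy ε (J i) - Sy ε (T i)| ≤ 2 * P i := by
      rw [b1, abs_mul, abs_of_pos hP]
      nlinarith
    have b4 := digit_bound ε i (J i) le_rfl
    rw [← T_succ] at b4
    have b5 : (0 : ℝ) ≤ (1 / 2) ^ J i := by positivity
    have b6 : |Sy ε (T (i + 1)) - Sy ε (J i)| ≤ 4 * P i := by nlinarith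
    have e : Sy ε (T (i + 1)) - Sy ε (T i) =
        (Sy ε (T (i + 1)) - Sy ε (J i)) + (Sy ε (J i) - Sy ε (T i)) := by ring
    rw [e]
    refine (abs_add_le _ _).trans ?_
    linarith
  have tel : ∀ j, |Sy ε (T (k + 1 + j)) - Sy ε (T (k + 1))| ≤ 12 * P (k + 1) - 12 * P (k + 1 + j) := by
    intro j
    induction j with
    | zero => simp
    | succ j ih =>
      have h1 := step (k + 1 + j) (by omega)
      have h2 := P_succ_le (k + 1 + j)
      have h3 := P_pos (k + 1 + j)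
      have e : Sy ε (T (k + 1 + (j + 1))) - Sy ε (T (k + 1)) =
        (Sy ε (T (k + 1 + j + 1)) - Sy ε (T (k + 1 + j))) +
          (Sy ε (T (k + 1 + j)) - Sy ε (T (k + 1))) := by
        rw [← add_assoc]; ring
      rw [e]
      refine (abs_add_le _ _).trans ?_
      rw [← add_assoc]
      linarith
  have hlim : Tendsto (fun j => |Sy ε (T (k + 1 + j)) - Sy ε (T (k + 1))|) atTop
      (𝓝 |Ly - Sy ε (T (k + 1))|) := by
    have h1 : Tendsto (fun j => T (k + 1 + j)) atTop atTop :=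
      T_strictMono.tendsto_atTop.comp (tendsto_atTop_mono (fun j => Nat.le_add_left j (k + 1)) tendsto_id)
    exact ((hy.comp h1).sub_const _).abs
  refine le_of_tendsto hlim (Eventually.of_forall fun j => ?_)
  have := P_pos (k + 1 + j)
  exact (tel j).trans (by linarith)

/-- Pieces of the cover. -/
def piece (Ly : ℝ) (k0 k : ℕ) (a : (Fin (J k) → Bool) × Fin 13) : Set Om :=
  {ε | ε ∈ Fs Ly k0 ∧ (∀ i : Fin (J k), ε i = a.1 i) ∧
    ⌊(Sy ε (T (k + 1)) - Ly + 12 * P (k + 1)) / (2 * P (k + 1))⌋₊ = (a.2 : ℕ)}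

theorem ediam_piece (Ly : ℝ) (k0 k : ℕ) (hk : k0 ≤ k) (a : (Fin (J k) → Bool) × Fin 13) :
    Metric.ediam (piece Ly k0 k a) ≤ (1 / 2 : ℝ≥0∞) ^ (2 * J k) := by
  have hP := P_pos (k + 1)
  apply Metric.ediam_le
  rintro x ⟨hx, hx1, hx2⟩ y ⟨hy, hy1, hy2⟩
  have hagree : ∀ i < T (k + 1), x i = y i := by
    by_contra hne
    push Not at hne
    have h1 : ∀ i < J k, x i = y i := by
      intro i hi
      have e1 := hx1 ⟨i, hi⟩
      have e2 := hy1 ⟨i, hi⟩
      simp only at e1 e2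
      rw [e1, e2]
    have h2 := separation h1 hne
    have hvx : 0 ≤ (Sy x (T (k + 1)) - Ly + 12 * P (k + 1)) / (2 * P (k + 1)) := by
      have := abs_le.1 (hx k hk)
      apply div_nonneg <;> linarith [this.2]
    have hvy : 0 ≤ (Sy y (T (k + 1)) - Ly + 12 * P (k + 1)) / (2 * P (k + 1)) := by
      have := abs_le.1 (hy k hk)
      apply div_nonneg <;> linarith [this.2]
    have f1 := Nat.floor_le hvx
    have f2 := Nat.lt_floor_add_one ((Sy x (T (k + 1)) - Ly + 12 * P (k + 1)) / (2 * P (k + 1)))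
    have f3 := Nat.floor_le hvy
    have f4 := Nat.lt_floor_add_one ((Sy y (T (k + 1)) - Ly + 12 * P (k + 1)) / (2 * P (k + 1)))
    rw [hx2] at f1 f2
    rw [hy2] at f3 f4
    rw [le_div_iff₀ (by positivity)] at f1 f3
    rw [div_lt_iff₀ (by positivity)] at f2 f4
    rcases le_abs.1 h2 with h | h <;> nlinarith
  rw [edist_dist, dist_eq]
  have h : rho x y ≤ (1 / 2 : ℝ) ^ (2 * J k) := by
    refine (rho_le_of_agree hagree).trans ?_
    apply pow_le_pow_of_le_one (by norm_num) (by norm_num)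
    rw [T_succ]; omega
  calc ENNReal.ofReal (rho x y) ≤ ENNReal.ofReal ((1 / 2 : ℝ) ^ (2 * J k)) :=
        ENNReal.ofReal_le_ofReal h
    _ = (1 / 2 : ℝ≥0∞) ^ (2 * J k) := by
        rw [ENNReal.ofReal_pow (by norm_num)]
        congr 1
        rw [ENNReal.ofReal_div_of_pos (by norm_num)]
        simp

theorem cover (Ly : ℝ) (k0 k : ℕ) (hk : k0 ≤ k) : Fs Ly k0 ⊆ ⋃ a, piece Ly k0 k a := by
  intro ε hε
  have hP := P_pos (k + 1)
  have h := abs_le.1 (hε k hk)
  have hv : (Sy ε (T (k + 1)) - Ly + 12 * P (k + 1)) / (2 * P (k + 1)) < 13 := by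
    rw [div_lt_iff₀ (by positivity)]; linarith [h.1]
  have hlt : ⌊(Sy ε (T (k + 1)) - Ly + 12 * P (k + 1)) / (2 * P (k + 1))⌋₊ < 13 :=
    (Nat.floor_lt' (by norm_num)).2 (by exact_mod_cast hv)
  exact mem_iUnion.2 ⟨(fun i => ε i, ⟨_, hlt⟩), hε, fun i => rfl, rfl⟩

theorem tendsto_J : Tendsto J atTop atTop :=
  tendsto_atTop_mono (fun k => (le_T k).trans (T_lt_J k).le) tendsto_id

theorem half_lt : (1 / 2 : ℝ≥0∞) < 1 := by rw [one_div]; exact ENNReal.inv_lt_one.2 (by norm_num)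

theorem measure_zero (Ly : ℝ) (k0 : ℕ) (s : ℝ) (hs : 1 / 2 < s) [MeasurableSpace Om]
    [BorelSpace Om] : μH[s] (Fs Ly k0) = 0 := by
  have hs0 : 0 < s := by linarith
  have h0 := Measure.hausdorffMeasure_le_liminf_sum (l := atTop)
    (ι := fun k : ℕ => ((Fin (J k) → Bool) × Fin 13)) s (Fs Ly k0)
    (fun k : ℕ => ((1 / 2 : ℝ≥0∞) ^ (2 * J k)))
    (by
      have h1 : Tendsto (fun n : ℕ => (1 / 2 : ℝ≥0∞) ^ n) atTop (𝓝 0) :=
        ENNReal.tendsto_pow_atTop_nhds_zero_of_lt_one half_lt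
      refine h1.comp (tendsto_atTop_mono (fun k => ?_) tendsto_J)
      omega)
    (fun k a => piece Ly k0 k a)
    (by filter_upwards [eventually_ge_atTop k0] with k hk a using ediam_piece Ly k0 k hk a)
    (by filter_upwards [eventually_ge_atTop k0] with k hk using cover Ly k0 k hk)
  obtain ⟨b, hb⟩ : ∃ b, b = (2 : ℝ≥0∞) * ((1 / 2 : ℝ≥0∞) ^ 2) ^ s := ⟨_, rfl⟩
  have hb1 : b < 1 := by
    rw [hb]
    have e1 : ((1 / 2 : ℝ≥0∞) ^ 2) ^ s = (1 / 2 : ℝ≥0∞) ^ (2 * s) := by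
      rw [← ENNReal.rpow_natCast, ← ENNReal.rpow_mul]; norm_num
    rw [e1]
    have e2 : (1 / 2 : ℝ≥0∞) ^ (2 * s) < (1 / 2 : ℝ≥0∞) ^ (1 : ℝ) :=
      ENNReal.rpow_lt_rpow_of_exponent_gt (by simp) half_lt (by linarith)
    rw [ENNReal.rpow_one] at e2
    calc (2 : ℝ≥0∞) * (1 / 2 : ℝ≥0∞) ^ (2 * s) < 2 * (1 / 2) :=
          (ENNReal.mul_lt_mul_iff_right (by norm_num) (by norm_num)).2 e2
      _ = 1 := by rw [one_div]; exact ENNReal.mul_inv_cancel (by norm_num) (by norm_num)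
  have hbound : ∀ᶠ k : ℕ in atTop, ∑ a : (Fin (J k) → Bool) × Fin 13,
      Metric.ediam (piece Ly k0 k a) ^ s ≤ 13 * b ^ J k := by
    filter_upwards [eventually_ge_atTop k0] with k hk
    calc ∑ a : (Fin (J k) → Bool) × Fin 13, Metric.ediam (piece Ly k0 k a) ^ s
        ≤ ∑ _a : (Fin (J k) → Bool) × Fin 13, ((1 / 2 : ℝ≥0∞) ^ (2 * J k)) ^ s := by
          apply Finset.sum_le_sum
          intro a _
          exact ENNReal.rpow_le_rpow (ediam_piece Ly k0 k hk a) hs0.le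
      _ = 13 * b ^ J k := by
          rw [Finset.sum_const, Finset.card_univ, Fintype.card_prod, Fintype.card_fun,
            Fintype.card_fin, Fintype.card_fin, Fintype.card_bool, nsmul_eq_mul]
          have e3 : ((1 / 2 : ℝ≥0∞) ^ (2 * J k)) ^ s = (((1 / 2 : ℝ≥0∞) ^ 2) ^ s) ^ J k := by
            rw [pow_mul, ← ENNReal.rpow_natCast, ← ENNReal.rpow_mul, mul_comm, ENNReal.rpow_mul,
              ENNReal.rpow_natCast]
          rw [e3, hb, mul_pow]
          push_cast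
          ring
  have hlim : Tendsto (fun k : ℕ => 13 * b ^ J k) atTop (𝓝 0) := by
    have h1 := (ENNReal.tendsto_pow_atTop_nhds_zero_of_lt_one hb1).comp tendsto_J
    have h2 := ENNReal.Tendsto.const_mul (a := 13) h1 (Or.inr (by norm_num))
    rw [mul_zero] at h2
    exact h2
  refine le_antisymm (h0.trans ?_) bot_le
  calc liminf (fun k : ℕ => ∑ a : (Fin (J k) → Bool) × Fin 13,
      Metric.ediam (piece Ly k0 k a) ^ s) atTop ≤ liminf (fun k : ℕ => 13 * b ^ J k) atTop :=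
        liminf_le_liminf hbound
    _ = 0 := hlim.liminf_eq

theorem dimH_le_half (Lx Ly : ℝ) :
    dimH {ε : Om | Tendsto (Sx ε) atTop (𝓝 Lx) ∧ Tendsto (Sy ε) atTop (𝓝 Ly)} ≤
      ((1 / 2 : ℝ≥0) : ℝ≥0∞) := by
  borelize Om
  have hsub : {ε : Om | Tendsto (Sx ε) atTop (𝓝 Lx) ∧ Tendsto (Sy ε) atTop (𝓝 Ly)} ⊆
      ⋃ k0, Fs Ly k0 := by
    rintro ε ⟨hx, hy⟩
    obtain ⟨k0, hk0⟩ := exists_stage hx hy
    exact mem_iUnion.2 ⟨k0, hk0⟩
  refine (dimH_mono hsub).trans ?_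
  rw [dimH_iUnion]
  refine iSup_le fun k0 => dimH_le fun d hd => ?_
  by_contra hcon
  push Not at hcon
  have h1 : (1 / 2 : ℝ≥0) < d := by exact_mod_cast hcon
  have h2 : (1 / 2 : ℝ) < (d : ℝ) := by
    have : ((1 / 2 : ℝ≥0) : ℝ) < (d : ℝ) := NNReal.coe_lt_coe.2 h1
    simpa using this
  rw [measure_zero Ly k0 d h2] at hd
  exact ENNReal.zero_ne_top hd

end Pool.Agent.Q3.SgnCex
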